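import Pool.Agent.Helper72.PT.St

/-! PT, module Bad -/

set_option autoImplicit false

open Finset

namespace Pool.Agent.Helper84.PT

open Pool.HW Pool.PL Pool.PT

variable {α : Type} [DecidableEq α]

/-- the lists of length `k` over `Q` -/
def LK (Q : Finset α) : ℕ → Finset (List α)
  | 0 => {[]}
  | k + 1 => (Q ×ˢ LK Q k).image fun q => q.1 :: q.2

theorem mem_LK {Q : Finset α} {k : ℕ} {L : List α} :
    L ∈ LK Q k ↔ L.length = k ∧ ∀ p ∈ L, p ∈ Q := by
  induction k generalizing L with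
  | zero => simp [LK]; intro h; simp [h]
  | succ k ih =>
    cases L with
    | nil => simp [LK]
    | cons a L =>
      simp only [LK, mem_image, mem_product, Prod.exists,
        List.cons.injEq, List.length_cons, List.mem_cons, forall_eq_or_imp]
      constructor
      · rintro ⟨b, K, ⟨hb, hK⟩, rfl, rfl⟩
        have := ih.1 hK
        exact ⟨by omega, hb, this.2⟩
      · rintro ⟨h1, h2, h3⟩
        exact ⟨a, L, ⟨h2, ih.2 ⟨by omega, h3⟩⟩, rfl, rfl⟩

theorem sum_LK (Q : Finset α) (v : α → ℝ) (k : ℕ) :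
    ∑ L ∈ LK Q k, (L.map v).prod = (∑ p ∈ Q, v p) ^ k := by
  induction k with
  | zero => simp [LK]
  | succ k ih =>
    rw [LK, Finset.sum_image, Finset.sum_product, pow_succ', ← ih, Finset.sum_mul_sum]
    · simp
    · rintro ⟨a, L⟩ _ ⟨b, K⟩ _ h
      simp only [List.cons.injEq] at h
      rw [Prod.mk.injEq]
      exact h

theorem exp_le_lin {t : ℝ} (h0 : 0 ≤ t) (h1 : t ≤ 1) : Real.exp t ≤ 1 + 2 * t := by
  have hc := convexOn_exp.2 (Set.mem_univ 0) (Set.mem_univ 1) (sub_nonneg.2 h1) h0 (by ring)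
  simp only [smul_eq_mul, mul_zero, zero_add, mul_one, Real.exp_zero] at hc
  have he : Real.exp 1 ≤ 3 := by
    have := Real.exp_one_lt_d9
    linarith
  nlinarith

theorem bad (hP : StPg) (hS : StScal) : StBad := by
  intro α _ S ℓ a N hℓ
  have hℓr : (1 : ℝ) ≤ ℓ := by exact_mod_cast hℓ
  have hu1 := (hS α S).1
  have hU1 : 1 ≤ S.U ℓ := by
    rw [Sys.U, Finset.sum_range_succ', S.u_zero]
    have : 0 ≤ ∑ k ∈ range ℓ, S.u (k + 1) := sum_nonneg fun i _ => S.u_nonneg _
    linarith
  have hU2 : S.U ℓ ≤ ℓ + 1 := by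
    rw [Sys.U]
    calc ∑ i ∈ range (ℓ + 1), S.u i ≤ ∑ i ∈ range (ℓ + 1), (1 : ℝ) :=
          sum_le_sum fun i _ => hu1 i
      _ = ℓ + 1 := by simp
  set Q := S.P.filter (fun p => S.τ p ≤ ℓ) with hQ
  set v : α → ℝ := fun p => S.w p * Real.exp ((S.τ p : ℝ) / ℓ) with hv
  have hvprod : ∀ L : List α, (L.map v).prod = S.wt L * Real.exp ((S.ht L : ℝ) / ℓ) := by
    intro L
    induction L with
    | nil => simp
    | cons b L ih =>
      rw [List.map_cons, List.prod_cons, ih, S.wt_cons, S.ht_cons]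
      push_cast
      rw [add_div, Real.exp_add]
      simp only [hv]
      ring
  -- the sum over one letter
  have hpp : ∑ p ∈ Q, (S.τ p : ℝ) * S.w p = ∑ g ∈ range (ℓ + 1), (g : ℝ) * S.pp g := by
    rw [← Finset.sum_fiberwise_of_maps_to (s := Q) (t := range (ℓ + 1)) (g := S.τ)
      (fun p hp => by
        rw [hQ, mem_filter] at hp
        rw [mem_range]; omega)]
    apply sum_congr rfl
    intro g hg
    rw [mem_range] at hg
    rw [Sys.pp, mul_sum, hQ, filter_filter]
    have : S.P.filter (fun p => S.τ p ≤ ℓ ∧ S.τ p = g) = S.P.filter (fun p => S.τ p = g) := by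
      apply filter_congr
      intro p _
      constructor
      · exact fun h => h.2
      · intro h; exact ⟨by omega, h⟩
    rw [this]
    apply sum_congr rfl
    intro p hp
    rw [(mem_filter.1 hp).2]
  have hv1 : ∑ p ∈ Q, v p ≤ 1 + 6 / S.U ℓ := by
    have h1 : ∑ p ∈ Q, v p ≤ ∑ p ∈ Q, (S.w p + 2 / ℓ * ((S.τ p : ℝ) * S.w p)) := by
      apply sum_le_sum
      intro p hp
      rw [hQ, mem_filter] at hp
      have h2 : (S.τ p : ℝ) ≤ ℓ := by exact_mod_cast hp.2
      have h3 := exp_le_lin (t := (S.τ p : ℝ) / ℓ) (by positivity)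
        (by rw [div_le_one (by linarith)]; exact h2)
      have h4 := mul_le_mul_of_nonneg_left h3 (S.w_nonneg p)
      simp only [hv]
      refine h4.trans (le_of_eq ?_)
      ring
    rw [sum_add_distrib, ← mul_sum, hpp] at h1
    have h2 : ∑ p ∈ Q, S.w p ≤ 1 :=
      (sum_le_sum_of_subset_of_nonneg (filter_subset _ _)
        (fun p _ _ => S.w_nonneg p)).trans S.w_sum
    have h3 := (hP α S ℓ).2
    have h4 : 2 / (ℓ : ℝ) * ∑ g ∈ range (ℓ + 1), (g : ℝ) * S.pp g ≤ 6 / S.U ℓ := by
      rw [div_mul_eq_mul_div, div_le_div_iff₀ (by linarith) (by linarith)]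
      have h5 : 0 ≤ ∑ g ∈ range (ℓ + 1), (g : ℝ) * S.pp g :=
        sum_nonneg fun g _ => mul_nonneg (Nat.cast_nonneg _) (S.pp_nonneg g)
      nlinarith
    linarith
  have hv0 : 0 ≤ ∑ p ∈ Q, v p :=
    sum_nonneg fun p _ => mul_nonneg (S.w_nonneg p) (Real.exp_pos _).le
  have hpow : ∀ k : ℕ, (k : ℝ) ≤ S.U ℓ → (∑ p ∈ Q, v p) ^ k ≤ Real.exp 6 := by
    intro k hk
    have h1 : ∑ p ∈ Q, v p ≤ Real.exp (6 / S.U ℓ) := by
      have := Real.add_one_le_exp (6 / S.U ℓ)
      linarith
    calc (∑ p ∈ Q, v p) ^ k ≤ Real.exp (6 / S.U ℓ) ^ k := pow_le_pow_left₀ hv0 h1 k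
      _ = Real.exp (k * (6 / S.U ℓ)) := by rw [← Real.exp_nat_mul]
      _ ≤ Real.exp 6 := by
        apply Real.exp_le_exp.2
        rw [mul_div_assoc', div_le_iff₀ (by linarith)]
        linarith
  classical
  -- all bad lists
  set K := (range (ℓ + 1)).filter (fun k : ℕ => (k : ℝ) ≤ S.U ℓ) with hK
  have hLHS : ∑ h ∈ Ioc a N, S.bad (S.U ℓ) ℓ h ≤
      ∑ B ∈ K.biUnion (fun k => (LK Q k).filter (fun B => a < S.ht B)), S.wt B := by
    have e : ∑ h ∈ Ioc a N, S.bad (S.U ℓ) ℓ h =
        ∑ B ∈ (Ioc a N).biUnion (fun h => (S.LH h).filter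
          (fun B => (B.length : ℝ) + 1 < S.U ℓ ∧ ∀ p ∈ B, S.τ p ≤ ℓ)), S.wt B := by
      rw [sum_biUnion]
      · apply sum_congr rfl
        intro h _
        rw [Sys.bad]
      · intro h _ h' _ hne
        exact disjoint_filter_filter (S.LH_disj hne)
    rw [e]
    apply sum_le_sum_of_subset_of_nonneg
    · intro B hB
      rw [mem_biUnion] at hB
      obtain ⟨h, hh, hB⟩ := hB
      rw [mem_filter, S.mem_LH] at hB
      obtain ⟨⟨hB1, hB2⟩, hB3, hB4⟩ := hB
      rw [mem_Ioc] at hh
      rw [mem_biUnion]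
      refine ⟨B.length, ?_, ?_⟩
      · rw [hK, mem_filter, mem_range]
        refine ⟨?_, by linarith⟩
        have : (B.length : ℝ) < (ℓ + 1 : ℕ) := by push_cast; linarith
        exact_mod_cast this
      · rw [mem_filter, mem_LK]
        refine ⟨⟨rfl, fun p hp => ?_⟩, by omega⟩
        rw [hQ, mem_filter]
        exact ⟨hB1 p hp, hB4 p hp⟩
    · intro B _ _
      exact S.wt_nonneg B
  refine hLHS.trans ?_
  rw [sum_biUnion]
  · have hterm : ∀ k ∈ K, ∑ B ∈ (LK Q k).filter (fun B => a < S.ht B), S.wt B ≤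
        Real.exp 6 * Real.exp (-((a : ℝ) / ℓ)) := by
      intro k hk
      rw [hK, mem_filter] at hk
      calc ∑ B ∈ (LK Q k).filter (fun B => a < S.ht B), S.wt B
          ≤ ∑ B ∈ (LK Q k).filter (fun B => a < S.ht B),
              (B.map v).prod * Real.exp (-((a : ℝ) / ℓ)) := by
            apply sum_le_sum
            intro B hB
            rw [mem_filter] at hB
            rw [hvprod, mul_assoc, ← Real.exp_add]
            apply le_mul_of_one_le_right (S.wt_nonneg B)
            apply Real.one_le_exp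
            have h1 : (a : ℝ) ≤ S.ht B := by exact_mod_cast hB.2.le
            have h2 : (a : ℝ) / ℓ ≤ (S.ht B : ℝ) / ℓ :=
              div_le_div_of_nonneg_right h1 (by linarith)
            linarith
        _ ≤ ∑ B ∈ LK Q k, (B.map v).prod * Real.exp (-((a : ℝ) / ℓ)) := by
            apply sum_le_sum_of_subset_of_nonneg (filter_subset _ _)
            intro B _ _
            rw [hvprod]
            have := S.wt_nonneg B
            positivity
        _ = (∑ p ∈ Q, v p) ^ k * Real.exp (-((a : ℝ) / ℓ)) := by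
            rw [← sum_mul, sum_LK]
        _ ≤ Real.exp 6 * Real.exp (-((a : ℝ) / ℓ)) :=
            mul_le_mul_of_nonneg_right (hpow k hk.2) (Real.exp_pos _).le
    refine (sum_le_sum hterm).trans ?_
    rw [sum_const, nsmul_eq_mul, ← mul_assoc]
    have hc : (K.card : ℝ) ≤ ℓ + 1 := by
      have : K.card ≤ (range (ℓ + 1)).card := card_le_card (filter_subset _ _)
      rw [card_range] at this
      exact_mod_cast this
    apply mul_le_mul_of_nonneg_right _ (Real.exp_pos _).le
    exact mul_le_mul_of_nonneg_right hc (Real.exp_pos _).le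
  · intro k _ k' _ hne
    rw [Function.onFun, disjoint_left]
    intro B hB hB'
    rw [mem_filter, mem_LK] at hB hB'
    exact hne (hB.1.1.symm.trans hB'.1.1)

end Pool.Agent.Helper84.PT
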